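import Pool.Agent.Q81.EX.Main

/-!
# A symmetric zero-contact-angle extinction profile exists (MP_db815f_an, Q1)

There are `ξ₀ > 0` and a positive function `g ∈ C⁴([0, ξ₀))` with
`-(g g''')' - (1/2) ξ g' + g - 1 = 0` on `[0, ξ₀)`, `g'(0) = g'''(0) = 0`, and
`g → 0`, `g' → 0`, `g g''' → 0` at `ξ₀`.

Idea of the proof. After rescaling to `[0, 1]` put `p = -G'` and `F = (3/2) ∫_0^s G - s - (1/2) s G`,
the rescaled flux. If `p` is concave, then so is `F`; as `F` vanishes at `0` and `1`, `F ≥ 0`, and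
the solution `q` of `-q'' = F / G`, `q(0) = q(1) = 0` is concave again. So the map
`p ↦ (2/3) q / ∫ r q` maps a set of concave functions into itself. Its only singular point is
`G = 1 - s²` (the explicit profiles with nonzero contact angle), and `D = 1/2 - ∫ r² p = ∫ F`, which
vanishes there, satisfies `D(new) ≥ c √D(old)`: the set `D ≥ c²` is invariant. Schauder's theorem
gives a fixed point, which is the profile.
-/

set_option autoImplicit false

open Set Filter Topology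

namespace Pool.Agent.Results.MP_db815f_an.ProfileExists

/-- The pair `(ξ₀, g)` is an admissible profile. Derivatives are derivatives within `[0, ξ₀)`
(one-sided at `0`). -/
structure IsAdmissibleProfile (ξ₀ : ℝ) (g : ℝ → ℝ) : Prop where
  pos_end : 0 < ξ₀
  smooth : ContDiffOn ℝ 4 g (Ico 0 ξ₀)
  pos : ∀ ξ ∈ Ico 0 ξ₀, 0 < g ξ
  ode : ∀ ξ ∈ Ico 0 ξ₀,
    -derivWithin (fun y => g y * iteratedDerivWithin 3 g (Ico 0 ξ₀) y) (Ico 0 ξ₀) ξ -
      1 / 2 * ξ * derivWithin g (Ico 0 ξ₀) ξ + g ξ - 1 = 0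
  sym_one : derivWithin g (Ico 0 ξ₀) 0 = 0
  sym_three : iteratedDerivWithin 3 g (Ico 0 ξ₀) 0 = 0
  height : Tendsto g (𝓝[<] ξ₀) (𝓝 0)
  angle : Tendsto (derivWithin g (Ico 0 ξ₀)) (𝓝[<] ξ₀) (𝓝 0)
  flux : Tendsto (fun y => g y * iteratedDerivWithin 3 g (Ico 0 ξ₀) y) (𝓝[<] ξ₀) (𝓝 0)

/-- An admissible profile exists. -/
theorem result : ∃ (ξ₀ : ℝ) (g : ℝ → ℝ), IsAdmissibleProfile ξ₀ g := by
  obtain ⟨ξ₀, g, h⟩ := Pool.Agent.Q81.EX.main
  exact ⟨ξ₀, g, ⟨h.pos_end, h.smooth, h.pos, h.ode, h.sym_one, h.sym_three, h.height, h.angle,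
    h.flux⟩⟩

end Pool.Agent.Results.MP_db815f_an.ProfileExists
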